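import Mathlib

namespace Pool.Agent.H.MP_b32758_al

variable {k : Type*} [Field k]

/-- The generators of the free algebra on four letters. -/
def y (μ : Fin 4) : FreeAlgebra k (Fin 4) := FreeAlgebra.ι k μ

/-- The commutator `y_a y_b - y_b y_a`. -/
def com (a b : Fin 4) : FreeAlgebra k (Fin 4) := y a * y b - y b * y a

/-- The anticommutator `y_a y_b + y_b y_a`. -/
def ant (a b : Fin 4) : FreeAlgebra k (Fin 4) := y a * y b + y b * y a

/-- The six defining relators of the 4-dimensional Sklyanin algebra `S(α,β,γ)`. -/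
def rels (α β γ : k) : Fin 6 → FreeAlgebra k (Fin 4) :=
  ![com 0 1 - α • ant 2 3, com 0 2 - β • ant 3 1, com 0 3 - γ • ant 1 2,
    ant 0 1 - com 2 3, ant 0 2 - com 3 1, ant 0 3 - com 1 2]

/-- Each relator is set equal to zero. -/
def Rel (α β γ : k) (a b : FreeAlgebra k (Fin 4)) : Prop := ∃ r, a = rels α β γ r ∧ b = 0

/-- The Sklyanin algebra `S(α,β,γ)`: the quotient of the free algebra by the ring congruence
generated by the six relations. -/
abbrev S (α β γ : k) : Type _ := (ringConGen (Rel α β γ)).Quotient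

/-- The generators `x_0,…,x_3` of `S`. -/
noncomputable def x (α β γ : k) (μ : Fin 4) : S α β γ := (ringConGen (Rel α β γ)).mkₐ k (y μ)

/-- The first three linear relations for a table `g μ ν`. -/
def GoodC {M : Type*} [AddCommGroup M] [Module k M] (α β γ : k) (g : Fin 4 → Fin 4 → M) : Prop :=
  g 0 1 - g 1 0 = α • (g 2 3 + g 3 2) ∧ g 0 2 - g 2 0 = β • (g 3 1 + g 1 3) ∧
  g 0 3 - g 3 0 = γ • (g 1 2 + g 2 1)

/-- The last three linear relations for a table `g μ ν`. -/
def GoodA {M : Type*} [AddCommGroup M] (g : Fin 4 → Fin 4 → M) : Prop :=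
  g 0 1 + g 1 0 = g 2 3 - g 3 2 ∧ g 0 2 + g 2 0 = g 3 1 - g 1 3 ∧ g 0 3 + g 3 0 = g 1 2 - g 2 1

/-- A table `g μ ν` satisfies the six linear relations. -/
def Good {M : Type*} [AddCommGroup M] [Module k M] (α β γ : k) (g : Fin 4 → Fin 4 → M) : Prop :=
  GoodC α β γ g ∧ GoodA g

theorem good_x (α β γ : k) : Good α β γ (fun μ ν => x α β γ μ * x α β γ ν) := by
  have h : ∀ r, (ringConGen (Rel α β γ)).mkₐ k (rels α β γ r) = 0 := fun r => by
    rw [← map_zero ((ringConGen (Rel α β γ)).mkₐ k)]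
    exact (RingCon.eq _).2 (RingConGen.Rel.of _ _ ⟨r, rfl, rfl⟩)
  have h0 := h 0
  have h1 := h 1
  have h2 := h 2
  have h3 := h 3
  have h4 := h 4
  have h5 := h 5
  simp only [rels, com, ant, Matrix.cons_val_zero, Matrix.cons_val_one, Matrix.cons_val, map_sub, map_add,
    map_mul, map_smul, sub_eq_zero] at h0 h1 h2 h3 h4 h5
  exact ⟨⟨h0, h1, h2⟩, h3, h4, h5⟩

theorem lift_rel {B : Type*} [Ring B] [Algebra k B] {α β γ : k} (t : Fin 4 → B)
    (ht : Good α β γ (fun μ ν => t μ * t ν)) :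
    ∀ ⦃a b⦄, Rel α β γ a b → FreeAlgebra.lift k t a = FreeAlgebra.lift k t b := by
  rintro a b ⟨r, rfl, rfl⟩
  obtain ⟨⟨h0, h1, h2⟩, h3, h4, h5⟩ := ht
  simp only at h0 h1 h2 h3 h4 h5
  fin_cases r <;>
    simp [rels, com, ant, y, sub_eq_zero, h0, h1, h2, h3, h4, h5]

theorem lift_le {B : Type*} [Ring B] [Algebra k B] {α β γ : k} (t : Fin 4 → B)
    (ht : Good α β γ (fun μ ν => t μ * t ν)) :
    ringConGen (Rel α β γ) ≤ RingCon.ker (FreeAlgebra.lift k t).toRingHom :=
  RingCon.ringConGen_le.2 fun _ _ h => lift_rel t ht h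

/-- The algebra map out of `S` sending `x μ` to `t μ`. -/
noncomputable def liftS {B : Type*} [Ring B] [Algebra k B] {α β γ : k} (t : Fin 4 → B)
    (ht : Good α β γ (fun μ ν => t μ * t ν)) : S α β γ →ₐ[k] B :=
  (ringConGen (Rel α β γ)).liftₐ (FreeAlgebra.lift k t) (lift_le t ht)

theorem liftS_x {B : Type*} [Ring B] [Algebra k B] {α β γ : k} (t : Fin 4 → B)
    (ht : Good α β γ (fun μ ν => t μ * t ν)) (μ : Fin 4) : liftS t ht (x α β γ μ) = t μ := by
  have := RingCon.liftₐ_mk _ (FreeAlgebra.lift k t) (lift_le t ht) (y μ)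
  rw [y, FreeAlgebra.lift_ι_apply] at this
  exact this

theorem good_g1 {B : Type*} [Ring B] [Algebra k B] {α β γ : k} (t : Fin 4 → B)
    (ht : Good α β γ (fun μ ν => t μ * t ν)) : Good α β γ (fun μ ν =>
    ![t 0, t 1, -t 2, -t 3] μ * ![t 0, t 1, -t 2, -t 3] ν) := by
  obtain ⟨⟨h0, h1, h2⟩, h3, h4, h5⟩ := ht
  simp only at h0 h1 h2 h3 h4 h5
  simp only [Good, GoodC, GoodA, Matrix.cons_val_zero, Matrix.cons_val_one, Matrix.cons_val, neg_mul, mul_neg,
    neg_neg]
  refine ⟨⟨h0, ?_, ?_⟩, h3, ?_, ?_⟩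
  · linear_combination (norm := module) -h1
  · linear_combination (norm := module) -h2
  · linear_combination (norm := module) -h4
  · linear_combination (norm := module) -h5

theorem good_g2 {B : Type*} [Ring B] [Algebra k B] {α β γ : k} (t : Fin 4 → B)
    (ht : Good α β γ (fun μ ν => t μ * t ν)) : Good α β γ (fun μ ν =>
    ![t 0, -t 1, t 2, -t 3] μ * ![t 0, -t 1, t 2, -t 3] ν) := by
  obtain ⟨⟨h0, h1, h2⟩, h3, h4, h5⟩ := ht
  simp only at h0 h1 h2 h3 h4 h5
  simp only [Good, GoodC, GoodA, Matrix.cons_val_zero, Matrix.cons_val_one, Matrix.cons_val, neg_mul, mul_neg,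
    neg_neg]
  refine ⟨⟨?_, h1, ?_⟩, ?_, h4, ?_⟩
  · linear_combination (norm := module) -h0
  · linear_combination (norm := module) -h2
  · linear_combination (norm := module) -h3
  · linear_combination (norm := module) -h5

/-- `g₁` fixes `x₀, x₁` and negates `x₂, x₃`. -/
noncomputable def g1 (α β γ : k) : S α β γ →ₐ[k] S α β γ :=
  liftS ![x α β γ 0, x α β γ 1, -x α β γ 2, -x α β γ 3] (good_g1 _ (good_x α β γ))

/-- `g₂` fixes `x₀, x₂` and negates `x₁, x₃`. -/
noncomputable def g2 (α β γ : k) : S α β γ →ₐ[k] S α β γ :=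
  liftS ![x α β γ 0, -x α β γ 1, x α β γ 2, -x α β γ 3] (good_g2 _ (good_x α β γ))

theorem conj_mul {R : Type*} [Ring R] (Z : Matrix (Fin 2) (Fin 2) R) (hZ : Z * Z = 1)
    (g : R →+* R) {M N : Matrix (Fin 2) (Fin 2) R} (hM : Z * M.map g * Z = M)
    (hN : Z * N.map g * Z = N) : Z * (M * N).map g * Z = M * N := by
  rw [Matrix.map_mul]
  calc Z * (M.map g * N.map g) * Z = Z * M.map g * (Z * Z) * N.map g * Z := by
        rw [hZ]; simp [mul_assoc]
    _ = (Z * M.map g * Z) * (Z * N.map g * Z) := by simp [mul_assoc]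
    _ = M * N := by rw [hM, hN]

/-- The matrix `diag(1,-1)`. -/
def Zm (R : Type*) [Ring R] : Matrix (Fin 2) (Fin 2) R := !![1, 0; 0, -1]

/-- The flip matrix. -/
def Xm (R : Type*) [Ring R] : Matrix (Fin 2) (Fin 2) R := !![0, 1; 1, 0]

/-- `M` is fixed by `g` applied entrywise followed by conjugation by the involution `Z`. -/
def Fix {R : Type*} [Ring R] (Z : Matrix (Fin 2) (Fin 2) R) (g : R → R)
    (M : Matrix (Fin 2) (Fin 2) R) : Prop := Z * M.map g * Z = M

/-- The matrices fixed by the diagonal action of both generators of `K₄`. -/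
def Aset (α β γ : k) : Set (Matrix (Fin 2) (Fin 2) (S α β γ)) :=
  {M | Fix (Zm _) (g1 α β γ) M ∧ Fix (Xm _) (g2 α β γ) M}

theorem Zm_sq (R : Type*) [Ring R] : Zm R * Zm R = 1 := by
  ext i j; fin_cases i <;> fin_cases j <;> simp [Zm]

theorem Xm_sq (R : Type*) [Ring R] : Xm R * Xm R = 1 := by
  ext i j; fin_cases i <;> fin_cases j <;> simp [Xm]

theorem fix_diag {R : Type*} [Ring R] {g h : R → R} {r : R} (g0 : g 0 = 0) (h0 : h 0 = 0)
    (hg : g r = r) (hh : h r = r) :
    Fix (Zm R) g (Matrix.scalar (Fin 2) r) ∧ Fix (Xm R) h (Matrix.scalar (Fin 2) r) := by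
  constructor <;> ext i j <;> fin_cases i <;> fin_cases j <;>
    simp [Zm, Xm, Matrix.mul_apply, Fin.sum_univ_two, Matrix.vecMul, dotProduct, g0, h0, hg, hh]

theorem Aset_mul {α β γ : k} {M N : Matrix (Fin 2) (Fin 2) (S α β γ)} (hM : M ∈ Aset α β γ)
    (hN : N ∈ Aset α β γ) : M * N ∈ Aset α β γ :=
  ⟨conj_mul _ (Zm_sq _) (g1 α β γ).toRingHom hM.1 hN.1,
    conj_mul _ (Xm_sq _) (g2 α β γ).toRingHom hM.2 hN.2⟩

theorem Aset_add {α β γ : k} {M N : Matrix (Fin 2) (Fin 2) (S α β γ)} (hM : M ∈ Aset α β γ)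
    (hN : N ∈ Aset α β γ) : M + N ∈ Aset α β γ := by
  constructor
  · rw [Fix, Matrix.map_add _ (map_add _), mul_add, add_mul, hM.1, hN.1]
  · rw [Fix, Matrix.map_add _ (map_add _), mul_add, add_mul, hM.2, hN.2]

theorem Aset_alg {α β γ : k} (c : k) :
    algebraMap k (Matrix (Fin 2) (Fin 2) (S α β γ)) c ∈ Aset α β γ :=
  fix_diag (r := algebraMap k (S α β γ) c) (map_zero _) (map_zero _) (AlgHom.commutes _ c)
    (AlgHom.commutes _ c)

/-- `A = M₂(S)^{K₄}`. -/
noncomputable def A (α β γ : k) : Subalgebra k (Matrix (Fin 2) (Fin 2) (S α β γ)) where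
  carrier := Aset α β γ
  mul_mem' := Aset_mul
  add_mem' := Aset_add
  algebraMap_mem' := Aset_alg

/-- The quotient of the ring `R` by the two-sided ideal generated by `w` has nonzero
zero-divisors. -/
def QuotHasZeroDivisors {R : Type*} [Ring R] (w : R) : Prop :=
  ∃ u v : (TwoSidedIdeal.span {w}).ringCon.Quotient, u ≠ 0 ∧ v ≠ 0 ∧ u * v = 0

/-- The span of the products of two generators: the degree two part of `S`. -/
noncomputable def S2 (α β γ : k) : Submodule k (S α β γ) :=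
  Submodule.span k {s | ∃ μ ν, s = x α β γ μ * x α β γ ν}

end Pool.Agent.H.MP_b32758_al
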