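import Pool.Agent.H.MP_b32758_al.A

namespace Pool.Agent.H.MP_b32758_al

variable {k : Type*} [Field k]

/-- the candidate rank one matrix -/
def NN (α β γ P0 P1 P2 P3 s1 s2 s3 t1 t2 t3 : k) : Fin 4 → Fin 4 → k :=
  ![![P0, t1 + s1, t2 + s2, t3 + s3],
    ![t1 - s1, P1, -t3 - γ * s3, -t2 + β * s2],
    ![t2 - s2, -t3 + γ * s3, P2, -t1 - α * s1],
    ![t3 - s3, -t2 - β * s2, -t1 + α * s1, P3]]

theorem rank_one {α β γ c1 c2 X1 X2 X3 Y τ1 τ2 τ3 P0 P1 P2 P3 e1 e2 e3 : k}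
    (hab : 1 + α * β ≠ 0) (ha2 : 1 - α ≠ 0) (hb1 : 1 + β ≠ 0) (hb2 : 1 - β ≠ 0)
    (hγ : γ = -(α + β) / (1 + α * β))
    (hτ1 : τ1 = (1 + β) * (1 - β) / (1 + α * β)) (hτ2 : τ2 = (1 - α) * (1 - β) / (1 + α * β))
    (hτ3 : τ3 = 1 - β) (hP0 : P0 = -c1) (hP1 : P1 = -(c1 + c2))
    (hP2 : P2 = -(c1 + c2 * (1 + α) / (1 - β))) (hP3 : P3 = -(c1 + c2 * (1 + α * β) / (1 - β)))
    (he1 : e1 = (c1 * ((1 + β) * (1 - β)) + c2 * (1 + α * β)) / ((1 - α) * (1 - β) ^ 2))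
    (he2 : e2 = (c1 * ((1 - α) * (1 - β)) + c2 * (1 + α * β)) / ((1 - β) ^ 2 * (1 + β)))
    (he3 : e3 = (c1 * (1 - β) + c2) * (1 + α * β) ^ 2 / ((1 - α) * (1 - β) ^ 2 * (1 + β)))
    (hY : Y ^ 2 = c2) (h1 : X1 ^ 2 = e1) (h2 : X2 ^ 2 = e2) (h3 : X3 ^ 2 = e3)
    (μ : Fin 4) (hμ : μ = 0 ∨ μ = 1) (ν ρ : Fin 4) :
    let N := NN α β γ P0 P1 P2 P3 (Y * X1) (Y * X2) (Y * X3)
      (τ1 * X2 * X3) (τ2 * X3 * X1) (τ3 * X1 * X2)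
    N ν μ * N μ ρ = N μ μ * N ν ρ := by
  intro N
  have hba : 1 + β * α ≠ 0 := by rwa [mul_comm] at hab
  have r0 : (-1)*P0*P1 + (1)*τ1^2*e2*e3 + (-1)*e1*c2 = 0 := by
    simp only [hγ, hτ1, hτ2, hτ3, hP0, hP1, hP2, hP3, he1, he2, he3]; field_simp; ring
  have r1 : (1)*τ3*P0 + (1)*τ1*τ2*e3 + (-1)*c2 = 0 := by
    simp only [hγ, hτ1, hτ2, hτ3, hP0, hP1, hP2, hP3, he1, he2, he3]; field_simp; ring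
  have r2 : (1)*γ*P0 + (1)*τ1*e2 + (-1)*τ2*e1 = 0 := by
    simp only [hγ, hτ1, hτ2, hτ3, hP0, hP1, hP2, hP3, he1, he2, he3]; field_simp; ring
  have r3 : (1)*τ2*P0 + (1)*τ1*τ3*e2 + (-1)*c2 = 0 := by
    simp only [hγ, hτ1, hτ2, hτ3, hP0, hP1, hP2, hP3, he1, he2, he3]; field_simp; ring
  have r4 : (-1)*β*P0 + (1)*τ1*e3 + (-1)*τ3*e1 = 0 := by
    simp only [hγ, hτ1, hτ2, hτ3, hP0, hP1, hP2, hP3, he1, he2, he3]; field_simp; ring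
  have r5 : (-1)*γ*P0 + (1)*τ2*e1 + (-1)*τ1*e2 = 0 := by
    simp only [hγ, hτ1, hτ2, hτ3, hP0, hP1, hP2, hP3, he1, he2, he3]; field_simp; ring
  have r6 : (-1)*P0*P2 + (1)*τ2^2*e1*e3 + (-1)*e2*c2 = 0 := by
    simp only [hγ, hτ1, hτ2, hτ3, hP0, hP1, hP2, hP3, he1, he2, he3]; field_simp; ring
  have r7 : (1)*τ1*P0 + (1)*τ2*τ3*e1 + (-1)*c2 = 0 := by
    simp only [hγ, hτ1, hτ2, hτ3, hP0, hP1, hP2, hP3, he1, he2, he3]; field_simp; ring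
  have r8 : (1)*α*P0 + (1)*τ2*e3 + (-1)*τ3*e2 = 0 := by
    simp only [hγ, hτ1, hτ2, hτ3, hP0, hP1, hP2, hP3, he1, he2, he3]; field_simp; ring
  have r9 : (1)*β*P0 + (1)*τ3*e1 + (-1)*τ1*e3 = 0 := by
    simp only [hγ, hτ1, hτ2, hτ3, hP0, hP1, hP2, hP3, he1, he2, he3]; field_simp; ring
  have r10 : (-1)*α*P0 + (1)*τ3*e2 + (-1)*τ2*e3 = 0 := by
    simp only [hγ, hτ1, hτ2, hτ3, hP0, hP1, hP2, hP3, he1, he2, he3]; field_simp; ring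
  have r11 : (-1)*P0*P3 + (1)*τ3^2*e1*e2 + (-1)*e3*c2 = 0 := by
    simp only [hγ, hτ1, hτ2, hτ3, hP0, hP1, hP2, hP3, he1, he2, he3]; field_simp; ring
  have r12 : (-1)*τ2*P1 + (-1)*τ1*τ3*e2 + (-1)*γ*c2 = 0 := by
    simp only [hγ, hτ1, hτ2, hτ3, hP0, hP1, hP2, hP3, he1, he2, he3]; field_simp; ring
  have r13 : (-1)*P1 + (-1)*γ*τ1*e3 + (-1)*τ3*e1 = 0 := by
    simp only [hγ, hτ1, hτ2, hτ3, hP0, hP1, hP2, hP3, he1, he2, he3]; field_simp; ring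
  have r14 : (-1)*τ3*P1 + (-1)*τ1*τ2*e3 + (1)*β*c2 = 0 := by
    simp only [hγ, hτ1, hτ2, hτ3, hP0, hP1, hP2, hP3, he1, he2, he3]; field_simp; ring
  have r15 : (-1)*P1 + (1)*β*τ1*e2 + (-1)*τ2*e1 = 0 := by
    simp only [hγ, hτ1, hτ2, hτ3, hP0, hP1, hP2, hP3, he1, he2, he3]; field_simp; ring
  have r16 : (1)*P1 + (1)*τ3*e1 + (1)*γ*τ1*e3 = 0 := by
    simp only [hγ, hτ1, hτ2, hτ3, hP0, hP1, hP2, hP3, he1, he2, he3]; field_simp; ring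
  have r17 : (-1)*P1*P2 + (1)*τ3^2*e1*e2 + (-1)*γ^2*e3*c2 = 0 := by
    simp only [hγ, hτ1, hτ2, hτ3, hP0, hP1, hP2, hP3, he1, he2, he3]; field_simp; ring
  have r18 : (1)*τ1*P1 + (1)*τ2*τ3*e1 + (1)*β*γ*c2 = 0 := by
    simp only [hγ, hτ1, hτ2, hτ3, hP0, hP1, hP2, hP3, he1, he2, he3]; field_simp; ring
  have r19 : (1)*α*P1 + (-1)*β*τ3*e2 + (-1)*γ*τ2*e3 = 0 := by
    simp only [hγ, hτ1, hτ2, hτ3, hP0, hP1, hP2, hP3, he1, he2, he3]; field_simp; ring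
  have r20 : (1)*P1 + (1)*τ2*e1 + (-1)*β*τ1*e2 = 0 := by
    simp only [hγ, hτ1, hτ2, hτ3, hP0, hP1, hP2, hP3, he1, he2, he3]; field_simp; ring
  have r21 : (-1)*α*P1 + (1)*γ*τ2*e3 + (1)*β*τ3*e2 = 0 := by
    simp only [hγ, hτ1, hτ2, hτ3, hP0, hP1, hP2, hP3, he1, he2, he3]; field_simp; ring
  have r22 : (-1)*P1*P3 + (1)*τ2^2*e1*e3 + (-1)*β^2*e2*c2 = 0 := by
    simp only [hγ, hτ1, hτ2, hτ3, hP0, hP1, hP2, hP3, he1, he2, he3]; field_simp; ring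
  rcases hμ with rfl | rfl <;> fin_cases ν <;> fin_cases ρ <;>
    simp only [N, NN, Matrix.cons_val_zero, Matrix.cons_val_one, Matrix.cons_val, Fin.zero_eta,
      Fin.mk_one, Fin.reduceFinMk]
  · ring
  · linear_combination ((-1)*Y^2) * h1 + ((1)*X3^2*τ1^2) * h2 + ((1)*τ1^2*e2) * h3 + ((-1)*e1) * hY + ((1)) * r0
  · linear_combination ((-1)*X3*Y*τ2) * h1 + ((1)*X3*Y*τ1) * h2 + ((1)*X1*X2*τ1*τ2) * h3 + ((-1)*X1*X2) * hY + ((X1*X2)) * r1 + ((X3*Y)) * r2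
  · linear_combination ((-1)*X2*Y*τ3) * h1 + ((1)*X1*X3*τ1*τ3) * h2 + ((1)*X2*Y*τ1) * h3 + ((-1)*X1*X3) * hY + ((X1*X3)) * r3 + ((X2*Y)) * r4
  · ring
  · linear_combination ((1)*X3*Y*τ2) * h1 + ((-1)*X3*Y*τ1) * h2 + ((1)*X1*X2*τ1*τ2) * h3 + ((-1)*X1*X2) * hY + ((X1*X2)) * r1 + ((X3*Y)) * r5
  · linear_combination ((1)*X3^2*τ2^2) * h1 + ((-1)*Y^2) * h2 + ((1)*τ2^2*e1) * h3 + ((-1)*e2) * hY + ((1)) * r6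
  · linear_combination ((1)*X2*X3*τ2*τ3) * h1 + ((-1)*X1*Y*τ3) * h2 + ((1)*X1*Y*τ2) * h3 + ((-1)*X2*X3) * hY + ((X2*X3)) * r7 + ((X1*Y)) * r8
  · ring
  · linear_combination ((1)*X2*Y*τ3) * h1 + ((1)*X1*X3*τ1*τ3) * h2 + ((-1)*X2*Y*τ1) * h3 + ((-1)*X1*X3) * hY + ((X1*X3)) * r3 + ((X2*Y)) * r9
  · linear_combination ((1)*X2*X3*τ2*τ3) * h1 + ((1)*X1*Y*τ3) * h2 + ((-1)*X1*Y*τ2) * h3 + ((-1)*X2*X3) * hY + ((X2*X3)) * r7 + ((X1*Y)) * r10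
  · linear_combination ((1)*X2^2*τ3^2) * h1 + ((1)*τ3^2*e1) * h2 + ((-1)*Y^2) * h3 + ((-1)*e3) * hY + ((1)) * r11
  · linear_combination ((-1)*Y^2) * h1 + ((1)*X3^2*τ1^2) * h2 + ((1)*τ1^2*e2) * h3 + ((-1)*e1) * hY + ((1)) * r0
  · ring
  · linear_combination ((-1)*X2*Y*τ3) * h1 + ((-1)*X1*X3*τ1*τ3) * h2 + ((-1)*X2*Y*γ*τ1) * h3 + ((-1)*X1*X3*γ) * hY + ((X1*X3)) * r12 + ((X2*Y)) * r13
  · linear_combination ((-1)*X3*Y*τ2) * h1 + ((1)*X3*Y*β*τ1) * h2 + ((-1)*X1*X2*τ1*τ2) * h3 + ((1)*X1*X2*β) * hY + ((X1*X2)) * r14 + ((X3*Y)) * r15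
  · linear_combination ((1)*X2*Y*τ3) * h1 + ((-1)*X1*X3*τ1*τ3) * h2 + ((1)*X2*Y*γ*τ1) * h3 + ((-1)*X1*X3*γ) * hY + ((X1*X3)) * r12 + ((X2*Y)) * r16
  · ring
  · linear_combination ((1)*X2^2*τ3^2) * h1 + ((1)*τ3^2*e1) * h2 + ((-1)*Y^2*γ^2) * h3 + ((-1)*γ^2*e3) * hY + ((1)) * r17
  · linear_combination ((1)*X2*X3*τ2*τ3) * h1 + ((-1)*X1*Y*β*τ3) * h2 + ((-1)*X1*Y*γ*τ2) * h3 + ((1)*X2*X3*β*γ) * hY + ((X2*X3)) * r18 + ((X1*Y)) * r19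
  · linear_combination ((1)*X3*Y*τ2) * h1 + ((-1)*X3*Y*β*τ1) * h2 + ((-1)*X1*X2*τ1*τ2) * h3 + ((1)*X1*X2*β) * hY + ((X1*X2)) * r14 + ((X3*Y)) * r20
  · ring
  · linear_combination ((1)*X2*X3*τ2*τ3) * h1 + ((1)*X1*Y*β*τ3) * h2 + ((1)*X1*Y*γ*τ2) * h3 + ((1)*X2*X3*β*γ) * hY + ((X2*X3)) * r18 + ((X1*Y)) * r21
  · linear_combination ((1)*X3^2*τ2^2) * h1 + ((-1)*Y^2*β^2) * h2 + ((1)*τ2^2*e1) * h3 + ((-1)*β^2*e2) * hY + ((1)) * r22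

end Pool.Agent.H.MP_b32758_al
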