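import Pool.Agent.H.MP_b32758_al.B

namespace Pool.Agent.H.MP_b32758_al

variable {k : Type*} [Field k]

theorem factor [IsAlgClosed k] {α β γ : k} (hs : α + β + γ + α * β * γ = 0)
    (ha1 : 1 + α ≠ 0) (ha2 : 1 - α ≠ 0) (hb1 : 1 + β ≠ 0) (hb2 : 1 - β ≠ 0)
    (c1 c2 : k) (hc : c1 ≠ 0 ∨ c1 + c2 ≠ 0) :
    ∃ (a b : Fin 4 → k) (s1 s2 s3 t1 t2 t3 : k), a ≠ 0 ∧ b ≠ 0 ∧ ∀ μ ν, a μ * b ν =
      NN α β γ (-c1) (-(c1 + c2)) (-(c1 + c2 * (1 + α) / (1 - β)))
        (-(c1 + c2 * (1 + α * β) / (1 - β))) s1 s2 s3 t1 t2 t3 μ ν := by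
  have hab : 1 + α * β ≠ 0 := fun h => by
    have h1 : α + β = 0 := by linear_combination hs - γ * h
    have : (1 + α) * (1 - α) = 0 := by linear_combination h - α * h1
    rcases mul_eq_zero.1 this with h | h <;> contradiction
  have hγ : γ = -(α + β) / (1 + α * β) := by
    field_simp
    linear_combination hs
  obtain ⟨Y, hY⟩ := IsAlgClosed.exists_pow_nat_eq c2 two_pos
  obtain ⟨X1, h1⟩ := IsAlgClosed.exists_pow_nat_eq
    ((c1 * ((1 + β) * (1 - β)) + c2 * (1 + α * β)) / ((1 - α) * (1 - β) ^ 2)) two_pos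
  obtain ⟨X2, h2⟩ := IsAlgClosed.exists_pow_nat_eq
    ((c1 * ((1 - α) * (1 - β)) + c2 * (1 + α * β)) / ((1 - β) ^ 2 * (1 + β))) two_pos
  obtain ⟨X3, h3⟩ := IsAlgClosed.exists_pow_nat_eq
    ((c1 * (1 - β) + c2) * (1 + α * β) ^ 2 / ((1 - α) * (1 - β) ^ 2 * (1 + β))) two_pos
  have key := rank_one hab ha2 hb1 hb2 hγ rfl rfl rfl rfl rfl rfl rfl rfl rfl rfl hY h1 h2 h3
  simp only at key
  set N := NN α β γ (-c1) (-(c1 + c2)) (-(c1 + c2 * (1 + α) / (1 - β)))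
    (-(c1 + c2 * (1 + α * β) / (1 - β))) (Y * X1) (Y * X2) (Y * X3)
    ((1 + β) * (1 - β) / (1 + α * β) * X2 * X3) ((1 - α) * (1 - β) / (1 + α * β) * X3 * X1)
    ((1 - β) * X1 * X2) with hN
  obtain ⟨μ, hμ, hne⟩ : ∃ μ : Fin 4, (μ = 0 ∨ μ = 1) ∧ N μ μ ≠ 0 := by
    rcases hc with h | h
    · exact ⟨0, Or.inl rfl, by simpa [hN, NN] using h⟩
    · exact ⟨1, Or.inr rfl, by
        have : N 1 1 = -(c1 + c2) := by simp [hN, NN]
        rw [this]; exact neg_ne_zero.2 h⟩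
  refine ⟨fun ν => N ν μ, fun ρ => N μ ρ / N μ μ, Y * X1, Y * X2, Y * X3,
    (1 + β) * (1 - β) / (1 + α * β) * X2 * X3, (1 - α) * (1 - β) / (1 + α * β) * X3 * X1,
    (1 - β) * X1 * X2, fun h => hne (congrFun h μ),
    fun h => ?_, fun ν ρ => ?_⟩
  · have := congrFun h μ
    simp [hne] at this
  · have := key μ hμ ν ρ
    show N ν μ * (N μ ρ / N μ μ) = N ν ρ
    field_simp
    linear_combination this

section
variable {B : Type*} [Ring B] [Algebra k B]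

/-- the degree one element `∑ a_μ x_μ q_μ` with `q = (1, i Z, i X, -Z X)` -/
def mat (i : k) (t : Fin 4 → B) (a : Fin 4 → k) : Matrix (Fin 2) (Fin 2) B :=
  !![a 0 • t 0 + (i * a 1) • t 1, (i * a 2) • t 2 - a 3 • t 3;
     (i * a 2) • t 2 + a 3 • t 3, a 0 • t 0 - (i * a 1) • t 1]

theorem mat_mul {i : k} (hi : i ^ 2 = -1) {α β γ : k} {t : Fin 4 → B}
    (ht : Good α β γ (fun μ ν => t μ * t ν)) {a b : Fin 4 → k}
    {P0 P1 P2 P3 s1 s2 s3 t1 t2 t3 : k}
    (h : ∀ μ ν, a μ * b ν = NN α β γ P0 P1 P2 P3 s1 s2 s3 t1 t2 t3 μ ν) :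
    mat i t a * mat i t b = Matrix.scalar (Fin 2)
      (P0 • (t 0 * t 0) - P1 • (t 1 * t 1) - P2 • (t 2 * t 2) - P3 • (t 3 * t 3)) := by
  obtain ⟨⟨h0, h1, h2⟩, h3, h4, h5⟩ := ht
  simp only at h0 h1 h2 h3 h4 h5
  have n00 := h 0 0
  have n01 := h 0 1
  have n02 := h 0 2
  have n03 := h 0 3
  have n10 := h 1 0
  have n11 := h 1 1
  have n12 := h 1 2
  have n13 := h 1 3
  have n20 := h 2 0
  have n21 := h 2 1
  have n22 := h 2 2
  have n23 := h 2 3
  have n30 := h 3 0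
  have n31 := h 3 1
  have n32 := h 3 2
  have n33 := h 3 3
  simp only [NN, Matrix.cons_val_zero, Matrix.cons_val_one, Matrix.cons_val] at n00 n01 n02 n03 n10 n11 n12 n13 n20 n21 n22 n23 n30 n31 n32 n33
  ext p q
  fin_cases p <;> fin_cases q <;>
    simp only [mat, Matrix.mul_apply, Fin.sum_univ_two, Matrix.scalar_apply, Matrix.of_apply,
      Matrix.cons_val', Matrix.cons_val_zero, Matrix.cons_val_one, Matrix.cons_val_fin_one,
      Fin.zero_eta, Fin.mk_one, Matrix.diagonal_apply_eq, add_mul, mul_add, sub_mul, mul_sub,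
      smul_mul_smul_comm, Fin.isValue, ne_eq, zero_ne_one, one_ne_zero, not_false_eq_true,
      Matrix.diagonal_apply_ne]
  · linear_combination (norm := skip) (i * s1) • h0 + (i * t1) • h3
    match_scalars <;> grind
  · linear_combination (norm := skip) (i * s2) • h1 + (i * t2) • h4 - s3 • h2 - t3 • h5
    match_scalars <;> grind
  · linear_combination (norm := skip) (i * s2) • h1 + (i * t2) • h4 + s3 • h2 + t3 • h5
    match_scalars <;> grind
  · linear_combination (norm := skip) (-(i * s1)) • h0 - (i * t1) • h3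
    match_scalars <;> grind

end

end Pool.Agent.H.MP_b32758_al
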