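import Pool.Agent.H.MP_b32758_al.C

namespace Pool.Agent.H.MP_b32758_al

variable {k : Type*} [Field k]

/-- a four step nilpotent representation attached to a trilinear table -/
def TT (f : Fin 4 → Fin 4 → Fin 4 → k) (μ : Fin 4) :
    Module.End k (k × (Fin 4 → k) × (Fin 4 → k) × k) where
  toFun m := (0, Pi.single μ m.1, fun l => ∑ ρ, f l μ ρ * m.2.1 ρ, m.2.2.1 μ)
  map_add' m n := by
    ext <;> simp [Pi.single_add, mul_add, Finset.sum_add_distrib]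
  map_smul' c m := by
    ext l <;> simp [Pi.single_apply, Finset.mul_sum, mul_left_comm]

theorem TT_mul (f : Fin 4 → Fin 4 → Fin 4 → k) (μ ν : Fin 4)
    (m : k × (Fin 4 → k) × (Fin 4 → k) × k) :
    (TT f μ * TT f ν) m = (0, 0, fun l => f l μ ν * m.1, ∑ ρ, f μ ν ρ * m.2.1 ρ) := by
  simp [TT, Pi.single_apply]

theorem good_TT {α β γ : k} {f : Fin 4 → Fin 4 → Fin 4 → k}
    (hl : ∀ l, Good α β γ (fun μ ν => f l μ ν)) (hr : ∀ l, Good α β γ (fun μ ν => f μ ν l)) :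
    Good α β γ (fun μ ν => TT f μ * TT f ν) := by
  simp only [Good, GoodC, GoodA, and_assoc, smul_eq_mul] at hl hr
  refine ⟨⟨?_, ?_, ?_⟩, ?_, ?_, ?_⟩ <;> refine LinearMap.ext fun m => ?_ <;>
    simp only [LinearMap.sub_apply, LinearMap.add_apply, LinearMap.smul_apply, TT_mul,
      Prod.mk_sub_mk, Prod.mk_add_mk, Prod.smul_mk, sub_zero, add_zero, smul_zero,
      Prod.mk.injEq, true_and] <;>
    refine ⟨funext fun l => ?_, ?_⟩ <;>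
    simp only [Pi.sub_apply, Pi.add_apply, Pi.smul_apply, smul_eq_mul, Fin.sum_univ_four]
  · linear_combination m.1 * (hl l).1
  · linear_combination m.2.1 0 * (hr 0).1 + m.2.1 1 * (hr 1).1 + m.2.1 2 * (hr 2).1 +
      m.2.1 3 * (hr 3).1
  · linear_combination m.1 * (hl l).2.1
  · linear_combination m.2.1 0 * (hr 0).2.1 + m.2.1 1 * (hr 1).2.1 + m.2.1 2 * (hr 2).2.1 +
      m.2.1 3 * (hr 3).2.1
  · linear_combination m.1 * (hl l).2.2.1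
  · linear_combination m.2.1 0 * (hr 0).2.2.1 + m.2.1 1 * (hr 1).2.2.1 + m.2.1 2 * (hr 2).2.2.1 +
      m.2.1 3 * (hr 3).2.2.1
  · linear_combination m.1 * (hl l).2.2.2.1
  · linear_combination m.2.1 0 * (hr 0).2.2.2.1 + m.2.1 1 * (hr 1).2.2.2.1 +
      m.2.1 2 * (hr 2).2.2.2.1 + m.2.1 3 * (hr 3).2.2.2.1
  · linear_combination m.1 * (hl l).2.2.2.2.1
  · linear_combination m.2.1 0 * (hr 0).2.2.2.2.1 + m.2.1 1 * (hr 1).2.2.2.2.1 +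
      m.2.1 2 * (hr 2).2.2.2.2.1 + m.2.1 3 * (hr 3).2.2.2.2.1
  · linear_combination m.1 * (hl l).2.2.2.2.2
  · linear_combination m.2.1 0 * (hr 0).2.2.2.2.2 + m.2.1 1 * (hr 1).2.2.2.2.2 +
      m.2.1 2 * (hr 2).2.2.2.2.2 + m.2.1 3 * (hr 3).2.2.2.2.2

theorem central_eq {α β γ : k} {f : Fin 4 → Fin 4 → Fin 4 → k}
    (hl : ∀ l, Good α β γ (fun μ ν => f l μ ν)) (hr : ∀ l, Good α β γ (fun μ ν => f μ ν l))
    {ω : Fin 4 → Fin 4 → k} (ρ : Fin 4)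
    (hc : (∑ μ, ∑ ν, ω μ ν • (x α β γ μ * x α β γ ν)) * x α β γ ρ =
      x α β γ ρ * ∑ μ, ∑ ν, ω μ ν • (x α β γ μ * x α β γ ν)) :
    ∑ μ, ∑ ν, ω μ ν * (f μ ν ρ - f ρ μ ν) = 0 := by
  have h := congrArg (fun s => (liftS (TT f) (good_TT hl hr) s (1, 0, 0, 0)).2.2.2) hc
  simp only [Finset.sum_mul, Finset.mul_sum, smul_mul_assoc, mul_smul_comm, map_sum, map_smul,
    map_mul, liftS_x] at h
  simp [TT, Pi.single_apply, Prod.snd_sum, Prod.fst_sum] at h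
  simp only [mul_sub, Finset.sum_sub_distrib]
  rw [h, sub_self]

/-- first table -/
def f1 (α β γ : k) : Fin 4 → Fin 4 → Fin 4 → k
  | 0, 1, 1 => (1 + α) * (1 - β) * (1 + α)
  | 0, 2, 2 => (1 + α) * (1 + β) * (1 + β)
  | 0, 3, 3 => (1 - α) * (1 - β) * (1 + γ)
  | 1, 0, 1 => (1 + α) * (1 - β) * (1 - α)
  | 2, 0, 2 => (1 + α) * (1 + β) * (1 - β)
  | 3, 0, 3 => (1 - α) * (1 - β) * (1 - γ)
  | 1, 1, 0 => (1 - α) * (1 - β) * (1 - α)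
  | 2, 2, 0 => (1 + α) * (1 - β) * (1 - β)
  | 3, 3, 0 => (1 + α) * (1 + β) * (1 - γ)
  | 2, 3, 1 => 2 * ((1 + α) * (1 - β))
  | 3, 1, 2 => 2 * ((1 + α) * (1 + β))
  | 1, 2, 3 => 2 * ((1 - α) * (1 - β))
  | _, _, _ => 0

/-- second table -/
def f2 (α β γ : k) : Fin 4 → Fin 4 → Fin 4 → k
  | 0, 1, 1 => 2 - 2 * α
  | 1, 0, 1 => 2 + 2 * α
  | 1, 1, 0 => 2 - 2 * α
  | 0, 2, 2 => 1 + β
  | 2, 0, 2 => 1 - β
  | 2, 2, 0 => 1 + β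
  | 0, 3, 3 => 3 + γ
  | 3, 0, 3 => 3 - γ
  | 3, 3, 0 => 3 + γ
  | 3, 1, 2 => 2
  | 1, 2, 3 => 4
  | 3, 2, 1 => -4
  | 2, 1, 3 => -2
  | _, _, _ => 0

/-- third table -/
def f3 (α β γ : k) : Fin 4 → Fin 4 → Fin 4 → k
  | 0, 0, 1 => 4 * α * γ * (β - 1)
  | 0, 2, 3 => 2 * γ * (β - 1) * (1 + α)
  | 0, 3, 2 => 2 * γ * (β - 1) * (1 - α)
  | 1, 2, 2 => (β - 1) * (1 - α) * (1 + γ)
  | 1, 3, 3 => 4 * γ * (1 + α)
  | 2, 0, 3 => -2 * γ * (1 + α) * (1 + β)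
  | 2, 1, 2 => -((1 + α) * (1 + β) * (1 + γ))
  | 2, 2, 1 => -((1 + α) * (1 + β) * (1 - γ))
  | _, _, _ => 0

theorem good_f {α β γ : k} (hs : α + β + γ + α * β * γ = 0) :
    (∀ l, Good α β γ (fun μ ν => f1 α β γ l μ ν)) ∧ (∀ l, Good α β γ (fun μ ν => f1 α β γ μ ν l)) ∧
    (∀ l, Good α β γ (fun μ ν => f2 α β γ l μ ν)) ∧ (∀ l, Good α β γ (fun μ ν => f2 α β γ μ ν l)) ∧
    (∀ l, Good α β γ (fun μ ν => f3 α β γ l μ ν)) ∧
    (∀ l, Good α β γ (fun μ ν => f3 α β γ μ ν l)) := by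
  refine ⟨?_, ?_, ?_, ?_, ?_, ?_⟩ <;> intro l <;> fin_cases l <;>
    simp only [Good, GoodC, GoodA, f1, f2, f3, smul_eq_mul] <;> grind

end Pool.Agent.H.MP_b32758_al
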