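import Pool.Agent.H.MP_b32758_al.D

namespace Pool.Agent.H.MP_b32758_al

variable {k : Type*} [Field k]

theorem diag [CharZero k] {B : Type*} [Ring B] [Algebra k B] {α β γ : k} {t : Fin 4 → B}
    (ht : Good α β γ (fun μ ν => t μ * t ν)) {ω : Fin 4 → Fin 4 → k}
    (e1 : (1 + α) * ω 0 1 + (1 - α) * ω 1 0 + 2 * ω 2 3 = 0)
    (e2 : (1 + β) * ω 0 2 + (1 - β) * ω 2 0 + 2 * ω 3 1 = 0)
    (e3 : (1 + γ) * ω 0 3 + (1 - γ) * ω 3 0 + 2 * ω 1 2 = 0)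
    (d1 : α * (ω 0 1 - ω 1 0) + ω 2 3 + ω 3 2 = 0)
    (d2 : β * (ω 0 2 - ω 2 0) + ω 3 1 + ω 1 3 = 0)
    (d3 : γ * (ω 0 3 - ω 3 0) + ω 1 2 + ω 2 1 = 0) :
    ∑ μ, ∑ ν, ω μ ν • (t μ * t ν) = ω 0 0 • (t 0 * t 0) - (-ω 1 1) • (t 1 * t 1) -
      (-ω 2 2) • (t 2 * t 2) - (-ω 3 3) • (t 3 * t 3) := by
  obtain ⟨⟨h0, h1, h2⟩, h3, h4, h5⟩ := ht
  simp only at h0 h1 h2 h3 h4 h5
  simp only [Fin.sum_univ_four]
  linear_combination (norm := skip) ((ω 0 1 - ω 1 0) / 2) • h0 + ((ω 0 1 + ω 1 0) / 2) • h3 +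
    ((ω 0 2 - ω 2 0) / 2) • h1 + ((ω 0 2 + ω 2 0) / 2) • h4 +
    ((ω 0 3 - ω 3 0) / 2) • h2 + ((ω 0 3 + ω 3 0) / 2) • h5
  match_scalars <;> grind

theorem centre [CharZero k] {α β γ : k} (hs : α + β + γ + α * β * γ = 0)
    (ha0 : α ≠ 0) (ha1 : 1 + α ≠ 0) (ha2 : 1 - α ≠ 0) (hb0 : β ≠ 0) (hb1 : 1 + β ≠ 0)
    (hb2 : 1 - β ≠ 0) (hc0 : γ ≠ 0) {ω : Fin 4 → Fin 4 → k}
    (hc : ∀ ρ, (∑ μ, ∑ ν, ω μ ν • (x α β γ μ * x α β γ ν)) * x α β γ ρ =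
      x α β γ ρ * ∑ μ, ∑ ν, ω μ ν • (x α β γ μ * x α β γ ν)) :
    ∃ c1 c2 : k, ∑ μ, ∑ ν, ω μ ν • (x α β γ μ * x α β γ ν) =
      (-c1) • (x α β γ 0 * x α β γ 0) - (-(c1 + c2)) • (x α β γ 1 * x α β γ 1) -
      (-(c1 + c2 * (1 + α) / (1 - β))) • (x α β γ 2 * x α β γ 2) -
      (-(c1 + c2 * (1 + α * β) / (1 - β))) • (x α β γ 3 * x α β γ 3) := by
  obtain ⟨l1, r1, l2, r2, l3, r3⟩ := good_f hs
  have a0 := central_eq l1 r1 0 (hc 0)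
  have a1 := central_eq l1 r1 1 (hc 1)
  have a2 := central_eq l1 r1 2 (hc 2)
  have a3 := central_eq l1 r1 3 (hc 3)
  have b1 := central_eq l2 r2 1 (hc 1)
  have b2 := central_eq l2 r2 2 (hc 2)
  have b3 := central_eq l2 r2 3 (hc 3)
  have d1 := central_eq l3 r3 1 (hc 1)
  simp only [Fin.sum_univ_four, f1, f2, f3] at a0 a1 a2 a3 b1 b2 b3 d1
  have hab : 1 + α * β ≠ 0 := fun h => by
    have h1 : α + β = 0 := by linear_combination hs - γ * h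
    have : (1 + α) * (1 - α) = 0 := by linear_combination h - α * h1
    rcases mul_eq_zero.1 this with h | h <;> contradiction
  have e1 : (1 + α) * ω 0 1 + (1 - α) * ω 1 0 + 2 * ω 2 3 = 0 := by
    apply mul_left_cancel₀ (mul_ne_zero (mul_ne_zero two_ne_zero ha0) hb2)
    linear_combination a1
  have e2 : (1 + β) * ω 0 2 + (1 - β) * ω 2 0 + 2 * ω 3 1 = 0 := by
    apply mul_left_cancel₀ (mul_ne_zero (mul_ne_zero two_ne_zero hb0) ha1)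
    linear_combination a2
  have e3 : (1 + γ) * ω 0 3 + (1 - γ) * ω 3 0 + 2 * ω 1 2 = 0 := by
    apply mul_left_cancel₀ (mul_ne_zero (mul_ne_zero two_ne_zero hc0) hab)
    linear_combination a3 + (2 * γ * ω 0 3 + 2 * (1 - γ) * ω 3 0 + 4 * ω 1 2) * hs
  have q0 : ω 1 1 * (α * (1 - β)) + ω 2 2 * (β * (1 + α)) - ω 3 3 * (α + β) = 0 := by
    linear_combination (-1 / 4 : k) * a0 - (1 / 2 : k) * ω 3 3 * hs
  have q1 : ω 0 0 * (α * (β - 1)) + ω 2 2 * (1 + α * β) - ω 3 3 * (1 + α) = 0 := by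
    apply mul_left_cancel₀ (mul_ne_zero (mul_ne_zero two_ne_zero two_ne_zero) hc0)
    linear_combination d1 + 2 * ω 2 2 * hs
  refine ⟨-ω 0 0, ω 1 1 + ω 0 0, ?_⟩
  rw [diag (good_x α β γ) e1 e2 e3 (by linear_combination (-1 / 4 : k) * b1)
    (by linear_combination (1 / 2 : k) * b2) (by linear_combination (1 / 2 : k) * b3)]
  have p2 : ω 2 2 = -ω 0 0 + (ω 1 1 + ω 0 0) * (1 + α) / (1 - β) := by
    field_simp
    apply mul_left_cancel₀ (mul_ne_zero ha0 hb2)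
    linear_combination (α + β) * q1 - (1 + α) * q0
  have p3 : ω 3 3 = -ω 0 0 + (ω 1 1 + ω 0 0) * (1 + α * β) / (1 - β) := by
    field_simp
    apply mul_left_cancel₀ (mul_ne_zero ha0 hb2)
    linear_combination (β * (1 + α)) * q1 - (1 + α * β) * q0
  rw [← p2, ← p3]
  simp

theorem mat_fix {B : Type*} [Ring B] [Algebra k B] (i : k) (t : Fin 4 → B) (a : Fin 4 → k)
    (g h : B →ₐ[k] B) (u0 : g (t 0) = t 0) (u1 : g (t 1) = t 1) (u2 : g (t 2) = -t 2)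
    (u3 : g (t 3) = -t 3) (v0 : h (t 0) = t 0) (v1 : h (t 1) = -t 1) (v2 : h (t 2) = t 2)
    (v3 : h (t 3) = -t 3) : Fix (Zm B) g (mat i t a) ∧ Fix (Xm B) h (mat i t a) := by
  constructor <;> ext p q <;> fin_cases p <;> fin_cases q <;>
    simp [Zm, Xm, mat, Matrix.mul_apply, Fin.sum_univ_two, Matrix.vecMul, dotProduct, u0, u1, u2,
      u3, v0, v1, v2, v3] <;> abel

theorem mat_mem (i : k) (α β γ : k) (a : Fin 4 → k) : mat i (x α β γ) a ∈ A α β γ :=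
  mat_fix i _ a _ _ (liftS_x _ _ 0) (liftS_x _ _ 1) (liftS_x _ _ 2) (liftS_x _ _ 3)
    (liftS_x _ _ 0) (liftS_x _ _ 1) (liftS_x _ _ 2) (liftS_x _ _ 3)

theorem sq_fix {B : Type*} [Ring B] [Algebra k B] (t : Fin 4 → B) (c : Fin 4 → k)
    (g : B →ₐ[k] B) (hg : ∀ μ, g (t μ) = t μ ∨ g (t μ) = -t μ) :
    g (c 0 • (t 0 * t 0) - c 1 • (t 1 * t 1) - c 2 • (t 2 * t 2) - c 3 • (t 3 * t 3)) =
      c 0 • (t 0 * t 0) - c 1 • (t 1 * t 1) - c 2 • (t 2 * t 2) - c 3 • (t 3 * t 3) := by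
  have : ∀ μ, g (t μ * t μ) = t μ * t μ := fun μ => by
    rcases hg μ with h | h <;> simp [h]
  simp only [map_sub, map_smul, this]

theorem scalar_mem {α β γ : k} (c : Fin 4 → k) :
    Matrix.scalar (Fin 2) (c 0 • (x α β γ 0 * x α β γ 0) - c 1 • (x α β γ 1 * x α β γ 1) -
      c 2 • (x α β γ 2 * x α β γ 2) - c 3 • (x α β γ 3 * x α β γ 3)) ∈ A α β γ := by
  refine fix_diag (map_zero _) (map_zero _) (sq_fix _ c _ fun μ => ?_) (sq_fix _ c _ fun μ => ?_)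
  · fin_cases μ
    exacts [Or.inl (liftS_x _ _ 0), Or.inl (liftS_x _ _ 1), Or.inr (liftS_x _ _ 2),
      Or.inr (liftS_x _ _ 3)]
  · fin_cases μ
    exacts [Or.inl (liftS_x _ _ 0), Or.inr (liftS_x _ _ 1), Or.inl (liftS_x _ _ 2),
      Or.inr (liftS_x _ _ 3)]

theorem good_zero (α β γ : k) : Good α β γ (fun _ _ => (0 : k)) := by simp [Good, GoodC, GoodA]

theorem good_T0 (α β γ : k) :
    Good α β γ (fun μ ν => TT (fun _ _ _ => (0 : k)) μ * TT (fun _ _ _ => (0 : k)) ν) :=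
  good_TT (fun _ => good_zero α β γ) (fun _ => good_zero α β γ)

theorem mat_not_mem' {B : Type*} [Ring B] [Algebra k B] {i : k} (hi : i ^ 2 = -1)
    (A' : Subalgebra k (Matrix (Fin 2) (Fin 2) B)) (t : Fin 4 → B)
    (ψ : B →ₐ[k] Module.End k (k × (Fin 4 → k) × (Fin 4 → k) × k))
    (hψ : ∀ μ, ψ (t μ) = TT (fun _ _ _ => (0 : k)) μ) {a : Fin 4 → k}
    (ha : a ≠ 0) {c : Fin 4 → k} (z w : A') (hz0 : z.1 = mat i t a)
    (hw : w.1 = Matrix.scalar (Fin 2)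
      (c 0 • (t 0 * t 0) - c 1 • (t 1 * t 1) - c 2 • (t 2 * t 2) - c 3 • (t 3 * t 3))) :
    z ∉ TwoSidedIdeal.span {w} := by
  intro hmem
  have hz : ∀ μ ν, TT (fun _ _ _ => (0 : k)) μ * TT (fun _ _ _ => (0 : k)) ν = 0 := fun μ ν =>
    LinearMap.ext fun m => by
      rw [TT_mul]
      ext <;> simp
  let φ := (ψ.mapMatrix (m := Fin 2)).toRingHom.comp A'.val.toRingHom
  have hle : TwoSidedIdeal.span {w} ≤ TwoSidedIdeal.ker φ := by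
    rw [TwoSidedIdeal.span_le]
    intro z hzw
    rw [Set.mem_singleton_iff.1 hzw]
    simp only [SetLike.mem_coe, TwoSidedIdeal.mem_ker]
    show ψ.mapMatrix w.1 = 0
    rw [hw]
    ext p q : 1
    fin_cases p <;> fin_cases q <;> simp [hψ, hz]
  have h0 : ψ.mapMatrix (mat i t a) = 0 := by
    rw [← hz0]
    exact (TwoSidedIdeal.mem_ker φ).1 (hle hmem)
  have hi0 : i ≠ 0 := by
    rintro rfl
    simp at hi
  have e00 := congrArg (fun M => (M 0 0 (1, 0, 0, 0)).2.1) h0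
  have e01 := congrArg (fun M => (M 0 1 (1, 0, 0, 0)).2.1) h0
  simp [mat, hψ, TT] at e00 e01
  apply ha
  ext μ
  fin_cases μ
  · simpa using congrFun e00 0
  · simpa [hi0] using congrFun e00 1
  · simpa [hi0] using congrFun e01 2
  · simpa using congrFun e01 3

theorem zero_aux {M : Type*} [AddCommGroup M] [Module k M] (p q r s : M) (a b d : k) :
    (-(0 : k)) • p - (-(0 + 0 : k)) • q - (-(0 + 0 * a / d : k)) • r -
      (-(0 + 0 * b / d : k)) • s = 0 := by simp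

theorem main [IsAlgClosed k] [CharZero k] {α β γ : k} (hs : α + β + γ + α * β * γ = 0)
    (hα : α ≠ 0 ∧ α ≠ 1 ∧ α ≠ -1) (hβ : β ≠ 0 ∧ β ≠ 1 ∧ β ≠ -1) (hγ : γ ≠ 0)
    (Ω : S α β γ) (h2 : Ω ∈ Submodule.span k {s | ∃ μ ν, s = x α β γ μ * x α β γ ν})
    (h0 : Ω ≠ 0) (hc : ∀ s, Ω * s = s * Ω) :
    ∃ w : A α β γ, (w : Matrix (Fin 2) (Fin 2) (S α β γ)) = Matrix.scalar (Fin 2) Ω ∧
      ∃ a b : A α β γ, a * b = w ∧ a ∉ TwoSidedIdeal.span {w} ∧ b ∉ TwoSidedIdeal.span {w} := by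
  have ha1 : 1 + α ≠ 0 := fun h => hα.2.2 (by linear_combination h)
  have ha2 : 1 - α ≠ 0 := fun h => hα.2.1 (by linear_combination -h)
  have hb1 : 1 + β ≠ 0 := fun h => hβ.2.2 (by linear_combination h)
  have hb2 : 1 - β ≠ 0 := fun h => hβ.2.1 (by linear_combination -h)
  obtain ⟨ω, rfl⟩ : ∃ ω : Fin 4 → Fin 4 → k, Ω = ∑ μ, ∑ ν, ω μ ν • (x α β γ μ * x α β γ ν) := by
    have : {s | ∃ μ ν, s = x α β γ μ * x α β γ ν} =
        Set.range (fun p : Fin 4 × Fin 4 => x α β γ p.1 * x α β γ p.2) := by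
      ext s
      simp [eq_comm]
    rw [this, Submodule.mem_span_range_iff_exists_fun] at h2
    obtain ⟨c, rfl⟩ := h2
    exact ⟨fun μ ν => c (μ, ν), by rw [Fintype.sum_prod_type]⟩
  obtain ⟨c1, c2, hΩ⟩ := centre hs hα.1 ha1 ha2 hβ.1 hb1 hb2 hγ (fun ρ => hc _)
  have hcc : c1 ≠ 0 ∨ c1 + c2 ≠ 0 := by
    by_contra h
    push Not at h
    obtain ⟨h1, h2⟩ := h
    have h3 : c2 = 0 := by linear_combination h2 - h1
    apply h0
    rw [hΩ, h1, h3]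
    exact zero_aux (k := k) (M := S α β γ) _ _ _ _ _ _ _
  obtain ⟨a, b, s1, s2, s3, t1, t2, t3, ha, hb, hab⟩ := factor hs ha1 ha2 hb1 hb2 c1 c2 hcc
  obtain ⟨i, hi⟩ := IsAlgClosed.exists_pow_nat_eq (-1 : k) two_pos
  let c : Fin 4 → k := ![-c1, -(c1 + c2), -(c1 + c2 * (1 + α) / (1 - β)),
    -(c1 + c2 * (1 + α * β) / (1 - β))]
  refine ⟨⟨_, scalar_mem c⟩, by rw [hΩ]; rfl, ⟨_, mat_mem i α β γ a⟩, ⟨_, mat_mem i α β γ b⟩,
    Subtype.ext (mat_mul hi (good_x α β γ) hab), 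
    mat_not_mem' hi _ _ (liftS _ (good_T0 α β γ)) (liftS_x _ _) ha (c := c) _ _ rfl rfl,
    mat_not_mem' hi _ _ (liftS _ (good_T0 α β γ)) (liftS_x _ _) hb (c := c) _ _ rfl rfl⟩

end Pool.Agent.H.MP_b32758_al
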